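import Pool.Agent.helper41.HFE.Spec
import Pool.Agent.helper35.HFN.DIM

/-!
# Row hfe:CDJ (MP_3221a1_ag): the codimension of `JJ Z κ`
-/

set_option autoImplicit false

open Polynomial Module Pool.Agent.HFN

namespace Pool.Agent.HFE

noncomputable section

/-- the value and the two derivatives at the points of `Z` -/
def CDJ_map (Z : Finset (ℂ × ℂ)) : AA →ₗ[ℂ] (Z → ℂ × ℂ × ℂ) :=
  LinearMap.pi fun z => (DIM_ev z.1).prod ((DIM_dx z.1).prod (DIM_dy z.1))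

theorem CDJ_ker {Z : Finset (ℂ × ℂ)} {κ : ℂ × ℂ → ℕ} :
    LinearMap.ker (CDJ_map Z) ≤ ((JJ Z κ).restrictScalars ℂ : Submodule ℂ AA) := by
  intro f hf
  rw [LinearMap.mem_ker] at hf
  show f ∈ JJ Z κ
  rw [mem_JJ]
  intro z hz
  have h1 : (ev z f, ev z (Dx f), ev z (Dy f)) = (0 : ℂ × ℂ × ℂ) := congrFun hf ⟨z, hz⟩
  have e1 : ev z f = 0 := congrArg Prod.fst h1
  have e2 : ev z (Dx f) = 0 := congrArg (fun p => p.2.1) h1
  have e3 : ev z (Dy f) = 0 := congrArg (fun p => p.2.2) h1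
  exact ⟨fun _ => e1, fun _ => ⟨e1, e2, e3⟩⟩

theorem CDJ_fc (Z : Finset (ℂ × ℂ)) (κ : ℂ × ℂ → ℕ) : Fc (JJ Z κ) := by
  have h1 : Module.Finite ℂ (AA ⧸ LinearMap.ker (CDJ_map Z)) :=
    Module.Finite.equiv (CDJ_map Z).quotKerEquivRange.symm
  have h2 : LinearMap.ker (CDJ_map Z) ≤ ((JJ Z κ).restrictScalars ℂ : Submodule ℂ AA) := CDJ_ker
  exact Module.Finite.of_surjective (Submodule.factor h2) (Submodule.factor_surjective h2)

theorem CDJ (hDIM : DIM_stmt) (hDFQ : DFQ_stmt) (hLRG : LRG_stmt) : CDJ_stmt := by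
  intro Z κ hκ
  have hF := CDJ_fc Z κ
  refine ⟨hF, ?_⟩
  obtain ⟨N, hN⟩ := hLRG _ hF
  have h1 := hN (max N (2 * Z.card)) (max N (2 * Z.card)) (le_max_left _ _) (le_max_left _ _)
  have h2 := hDFQ _ hF (max N (2 * Z.card)) (max N (2 * Z.card))
  have h3 := (hDIM Z κ hκ (max N (2 * Z.card)) (max N (2 * Z.card))).2 (le_max_right _ _) (le_max_right _ _)
  rw [h1] at h2
  have h4 : finrank ℂ (AA ⧸ (⊤ : Submodule ℂ AA)) = 0 := by
    have : Subsingleton (AA ⧸ (⊤ : Submodule ℂ AA)) := Submodule.Quotient.subsingleton_iff.2 rfl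
    exact finrank_zero_of_subsingleton
  rw [h4] at h2
  omega

end

end Pool.Agent.HFE

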