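import Pool.Agent.helper41.HFE.Spec

/-!
# Row hfe:ROC (MP_3221a1_ag): columns, from rows
-/

set_option autoImplicit false

open Polynomial Module Pool.Agent.HFN

namespace Pool.Agent.HFE

noncomputable section

theorem ROC_chi (i j a : ℕ) : chi j i 0 a = chi i j a 0 := by
  unfold chi
  simp only [Nat.sub_zero]
  rw [mul_comm (j + 1) (i + 1), mul_comm (j + 1) (i + 1 - a)]

theorem ROC : ROC_stmt := by
  intro hU hL hS
  refine ⟨?_, ?_⟩
  · intro Z f i j hf hY hX
    obtain ⟨-, h1, h2⟩ := hS Z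
    have h3 := hU (Z.image Prod.swap) (sw f) j i ((map_ne_zero_iff sw sw.injective).2 hf) (by rw [dX_sw]; exact hY) (by rw [dY_sw]; exact hX)
    rw [h1 f, h2 j, dY_sw, ROC_chi] at h3
    exact h3
  · intro Z i j hZ
    obtain ⟨h0, h1, h2⟩ := hS Z
    rw [← h0] at hZ
    obtain ⟨f, hf, hX, hY, h3⟩ := hL _ j i hZ
    refine ⟨sw f, (map_ne_zero_iff sw sw.injective).2 hf, by rw [dY_sw]; exact hX, by rw [dX_sw]; exact hY, ?_⟩
    rw [← h1 (sw f), sw_sw, ← h2 j, dX_sw, ← ROC_chi]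
    exact h3

end

end Pool.Agent.HFE

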